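import Mathlib

set_option autoImplicit false

/-!
Linear search on the line with a turning cost: the game.
-/

open scoped ENNReal
open MeasureTheory

namespace Pool.Agent.Q216.LinSearch

/-- For the trajectory with turning points `x 0, -x 1, x 2, -x 3, …` and turning cost `d`, the time
at which the searcher passes through `0` on leg number `i` (the leg that ends at `(-1)^i * x i`;
leg `0` starts at `0` at time `0`). -/
noncomputable def zeroTime (d : ℝ) (x : ℕ → ℝ) (i : ℕ) : ℝ :=
  ∑ j ∈ Finset.range i, (2 * x j + d)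

/-- The searcher is at the point `H` at time `t`.  On leg `i` it moves with unit speed from
`(-1)^(i-1) * x (i-1)` (from `0`, if `i = 0`) to `(-1)^i * x i`, passing `0` at time
`zeroTime d x i`; then it stays for the time `d` at `(-1)^i * x i`. -/
def IsAt (d : ℝ) (x : ℕ → ℝ) (t H : ℝ) : Prop :=
  ∃ i : ℕ,
    (zeroTime d x i - (if i = 0 then 0 else x (i - 1)) ≤ t ∧ t ≤ zeroTime d x i + x i ∧
      H = (-1) ^ i * (t - zeroTime d x i)) ∨
    (zeroTime d x i + x i ≤ t ∧ t ≤ zeroTime d x i + x i + d ∧ H = (-1) ^ i * x i)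

/-- `C(S,H)`: the first time at which the searcher is at `H`, `∞` if `H` is never reached. -/
noncomputable def captureTime (d : ℝ) (x : ℕ → ℝ) (H : ℝ) : ℝ≥0∞ :=
  ⨅ (t : ℝ) (_ : 0 ≤ t ∧ IsAt d x t H), ENNReal.ofReal t

/-- The value `V̄(d)`: the infimum, over all search trajectories, of the supremum of the expected
capture time over all hiding distributions `h` with `E|H| ≤ 1`. -/
noncomputable def Vbar (d : ℝ) : ℝ≥0∞ :=
  ⨅ (x : ℕ → ℝ) (_ : ∀ i, 0 < x i),
    ⨆ (h : Measure ℝ) (_ : IsProbabilityMeasure h) (_ : ∫⁻ H, ENNReal.ofReal |H| ∂h ≤ 1),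
      ∫⁻ H, captureTime d x H ∂h

end Pool.Agent.Q216.LinSearch
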