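import Pool.Agent.Q216.LinSearch.Defs

set_option autoImplicit false

open scoped ENNReal
open MeasureTheory

namespace Pool.Agent.Q216.LinSearch

section Basic

variable {d : ℝ} {x : ℕ → ℝ}

theorem zeroTime_zero : zeroTime d x 0 = 0 := by simp [zeroTime]

theorem zeroTime_succ (i : ℕ) : zeroTime d x (i + 1) = zeroTime d x i + (2 * x i + d) := by
  simp [zeroTime, Finset.sum_range_succ]

theorem zeroTime_mono (hd : 0 < d) (hx : ∀ i, 0 < x i) : Monotone (zeroTime d x) := by
  apply monotone_nat_of_le_succ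
  intro n
  rw [zeroTime_succ]
  have := hx n
  linarith

theorem neg_one_pow_mul_abs (i : ℕ) (H : ℝ) (h : 0 ≤ (-1) ^ i * H) : (-1) ^ i * |H| = H := by
  rcases neg_one_pow_eq_or ℝ i with h1 | h1
  · rw [h1, one_mul] at h ⊢
    exact abs_of_nonneg h
  · rw [h1] at h ⊢
    rw [abs_of_nonpos (by linarith)]
    ring

/-- A point is reached at the latest on the first leg that covers it. -/
theorem captureTime_le (i : ℕ) (H : ℝ) (hd : 0 < d) (hx : ∀ i, 0 < x i)
    (h1 : 0 ≤ (-1) ^ i * H) (h2 : |H| ≤ x i) :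
    captureTime d x H ≤ ENNReal.ofReal (zeroTime d x i + |H|) := by
  have h0 : 0 ≤ zeroTime d x i := by
    have := zeroTime_mono hd hx (Nat.zero_le i)
    rwa [zeroTime_zero] at this
  have h3 : IsAt d x (zeroTime d x i + |H|) H := by
    refine ⟨i, Or.inl ⟨?_, ?_, ?_⟩⟩
    · have : 0 ≤ (if i = 0 then 0 else x (i - 1)) := by
        split_ifs
        · exact le_rfl
        · exact (hx _).le
      have := abs_nonneg H
      linarith
    · linarith
    · rw [add_sub_cancel_left]
      exact (neg_one_pow_mul_abs i H h1).symm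
  exact iInf₂_le_of_le _ ⟨add_nonneg h0 (abs_nonneg H), h3⟩ le_rfl

/-- If the searcher is at `H` at time `t` then some leg covering `H` has been used. -/
theorem exists_leg (hd : 0 < d) (hx : ∀ i, 0 < x i) {t H : ℝ} (h : IsAt d x t H) :
    ∃ i : ℕ, 0 ≤ (-1) ^ i * H ∧ |H| ≤ x i ∧ zeroTime d x i + |H| ≤ t := by
  obtain ⟨i, ⟨h1, h2, h3⟩ | ⟨h1, h2, h3⟩⟩ := h
  · rcases le_or_gt (zeroTime d x i) t with ht | ht
    · have e1 : (-1) ^ i * H = t - zeroTime d x i := by
        rw [h3, ← mul_assoc, ← mul_pow]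
        simp
      have e2 : |H| = t - zeroTime d x i := by
        rw [h3, abs_mul, abs_pow, abs_neg, abs_one, one_pow, one_mul, abs_of_nonneg]
        linarith
      refine ⟨i, ?_, ?_, ?_⟩
      · rw [e1]; linarith
      · rw [e2]; linarith
      · rw [e2]; linarith
    · cases i with
      | zero =>
        exfalso
        simp only [if_true] at h1
        linarith
      | succ i =>
        simp only [Nat.succ_ne_zero, if_false, Nat.add_sub_cancel] at h1
        have e1 : (-1) ^ i * H = zeroTime d x (i + 1) - t := by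
          rw [h3, ← mul_assoc, pow_succ, ← mul_assoc, ← mul_pow]
          simp
        have e2 : |H| = zeroTime d x (i + 1) - t := by
          rw [h3, abs_mul, abs_pow, abs_neg, abs_one, one_pow, one_mul, abs_of_neg]
          · ring
          · linarith
        have e3 := zeroTime_succ (d := d) (x := x) i
        refine ⟨i, ?_, ?_, ?_⟩
        · rw [e1]; linarith
        · rw [e2]; linarith
        · rw [e2]; linarith
  · have e1 : (-1) ^ i * H = x i := by
      rw [h3, ← mul_assoc, ← mul_pow]
      simp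
    have e2 : |H| = x i := by
      rw [h3, abs_mul, abs_pow, abs_neg, abs_one, one_pow, one_mul, abs_of_pos (hx i)]
    refine ⟨i, ?_, ?_, ?_⟩
    · rw [e1]; exact (hx i).le
    · rw [e2]
    · rw [e2]; exact h1

/-- Lower bound for the capture time. -/
theorem le_captureTime (hd : 0 < d) (hx : ∀ i, 0 < x i) {H c : ℝ}
    (h : ∀ i : ℕ, 0 ≤ (-1) ^ i * H → |H| ≤ x i → c ≤ zeroTime d x i + |H|) :
    ENNReal.ofReal c ≤ captureTime d x H := by
  refine le_iInf₂ fun t ht => ?_
  obtain ⟨i, h1, h2, h3⟩ := exists_leg hd hx ht.2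
  exact ENNReal.ofReal_le_ofReal ((h i h1 h2).trans h3)

end Basic

/-! ### The lower bound for one trajectory -/

section Lower

variable {d : ℝ} {x : ℕ → ℝ}

/-- The core: if the capture times are bounded by `a + b |H|`, then `a + b` is large. -/
theorem core (hd : 0 < d) (hx : ∀ i, 0 < x i) (a b : ℝ)
    (hT1 : zeroTime d x 1 ≤ a)
    (hT : ∀ n, 1 ≤ n → ∃ j, j < n ∧ zeroTime d x (n + 1) ≤ a + (b - 1) * x j) :
    5 + d + 2 * √(2 * (d + 2)) ≤ a + b := by
  by_contra hcon
  push Not at hcon
  -- notation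
  set T := zeroTime d x with hTdef
  set β := b - 1 with hβ
  have hTs : ∀ i, T (i + 1) = T i + (2 * x i + d) := zeroTime_succ
  have hTm : Monotone T := zeroTime_mono hd hx
  have hTd : ∀ n : ℕ, (n : ℝ) * d ≤ T n := by
    intro n
    induction n with
    | zero => simp [hTdef, zeroTime_zero]
    | succ n ih =>
      rw [hTs]
      have := hx n
      push_cast
      linarith
  have ha : d < a := by
    have h1 := hTs 0
    have h2 : T 0 = 0 := zeroTime_zero
    have h3 := hx 0
    have h4 : T 1 ≤ a := hT1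
    rw [zero_add] at h1
    linarith
  -- `√`
  have hs : 0 ≤ √(2 * (d + 2)) := Real.sqrt_nonneg _
  have hs2 : √(2 * (d + 2)) ^ 2 = 2 * (d + 2) := Real.sq_sqrt (by linarith)
  have hVle : 5 + d + 2 * √(2 * (d + 2)) ≤ 9 + 2 * d := by
    have h1 : √(2 * (d + 2)) ≤ (d + 4) / 2 := by
      rw [Real.sqrt_le_left (by linarith)]
      nlinarith [sq_nonneg d]
    linarith
  -- `β > 0`
  have hβpos : 0 < β := by
    by_contra hb
    push Not at hb
    obtain ⟨n, hn⟩ := exists_nat_gt (a / d)
    rw [div_lt_iff₀ hd] at hn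
    obtain ⟨j, -, h1⟩ := hT (n + 1) (by omega)
    have h2 := hTd (n + 1 + 1)
    have h3 : β * x j ≤ 0 := mul_nonpos_of_nonpos_of_nonneg hb (hx j).le
    have h4 : T (n + 1 + 1) ≤ a + β * x j := h1
    push_cast at h2
    nlinarith
  -- key inequality
  have hkey : β * (d * (a - d)) < 2 * a ^ 2 := by
    have h1 : β < 4 + d + 2 * √(2 * (d + 2)) - a := by linarith
    have h2 : 0 < d * (a - d) := mul_pos hd (by linarith)
    have h3 : β * (d * (a - d)) < (4 + d + 2 * √(2 * (d + 2)) - a) * (d * (a - d)) :=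
      mul_lt_mul_of_pos_right h1 h2
    -- `(4 + d + 2 w - a) d (a - d) ≤ 2 a ^ 2` with `w ^ 2 = 2 (d + 2)`:
    -- the difference is `(w (a - d) - 2 d) ^ 2 / ...`
    set w := √(2 * (d + 2)) with hw
    have h4 : 2 * a ^ 2 - (4 + d + 2 * w - a) * (d * (a - d)) = (w * (a - d) - 2 * d) ^ 2 / 2
        + (a - d) * (a - d) * (d - (w ^ 2 / 2 - 2)) := by
      ring
    have h5 : w ^ 2 / 2 - 2 = d := by rw [hs2]; ring
    rw [h5, sub_self, mul_zero, add_zero] at h4
    have h6 : 0 ≤ (w * (a - d) - 2 * d) ^ 2 / 2 := by positivity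
    linarith
  set U : ℕ → ℝ := fun n => T n - a + β * d / 2 with hU
  have hUs : ∀ i, U (i + 1) - U i = 2 * x i + d := by
    intro i
    simp only [hU, hTs]
    ring
  have hUm : Monotone U := by
    intro i j hij
    have := hTm hij
    simp only [hU]
    linarith
  have hUT : ∀ n, 1 ≤ n → ∃ j, j < n ∧ U (n + 1) ≤ β / 2 * (2 * x j + d) := by
    intro n hn
    obtain ⟨j, hj, h1⟩ := hT n hn
    refine ⟨j, hj, ?_⟩
    have h2 : T (n + 1) ≤ a + β * x j := h1
    simp only [hU]
    linarith
  -- eventually large index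
  have hlarge : ∀ N : ℕ, ∃ M : ℕ, 1 ≤ M ∧ ∀ n, M ≤ n → ∀ j, j < n →
      U (n + 1) ≤ β / 2 * (2 * x j + d) → N ≤ j := by
    intro N
    -- bound of `x j`, `j < N`
    obtain ⟨B, hB⟩ : ∃ B : ℝ, ∀ j, j < N → x j ≤ B := by
      refine ⟨∑ j ∈ Finset.range N, x j, fun j hj => ?_⟩
      exact Finset.single_le_sum (f := x) (fun i _ => (hx i).le) (Finset.mem_range.2 hj)
    obtain ⟨M, hM⟩ := exists_nat_gt ((β / 2 * (2 * B + d) + a - β * d / 2) / d)
    rw [div_lt_iff₀ hd] at hM
    refine ⟨M + 1, by omega, fun n hn j _ h => ?_⟩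
    by_contra hj
    push Not at hj
    have h1 := hB j hj
    have h2 : β / 2 * (2 * x j + d) ≤ β / 2 * (2 * B + d) := by
      apply mul_le_mul_of_nonneg_left _ (by positivity)
      linarith
    have h3 := hTd (n + 1)
    have h4 : (M : ℝ) * d ≤ ((n + 1 : ℕ) : ℝ) * d := by
      apply mul_le_mul_of_nonneg_right _ hd.le
      exact_mod_cast (by omega : M ≤ n + 1)
    simp only [hU] at h
    linarith
  -- the iteration step
  have hstep : ∀ q : ℝ, 0 < q → (∃ N, ∀ j, N ≤ j → 0 < U (j + 1) ∧ 2 * x j + d ≤ q * U (j + 1)) →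
      (∃ N, ∀ j, N ≤ j → 0 < U (j + 1) ∧ 2 * x j + d ≤ (1 - 2 / (β * q)) * U (j + 1)) := by
    rintro q hq ⟨N, hN⟩
    obtain ⟨M, hM1, hM⟩ := hlarge N
    refine ⟨max M N, fun j hj => ⟨(hN j (le_trans (le_max_right _ _) hj)).1, ?_⟩⟩
    have hjM : M ≤ j := le_trans (le_max_left _ _) hj
    obtain ⟨i, hi, h1⟩ := hUT j (by omega)
    have hiN := hM j hjM i hi h1
    obtain ⟨h2, h3⟩ := hN i hiN
    have h4 : U (i + 1) ≤ U j := hUm (by omega)
    have h5 : U (j + 1) ≤ β / 2 * (q * U j) := by
      refine h1.trans ?_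
      apply mul_le_mul_of_nonneg_left _ (by positivity)
      refine h3.trans ?_
      exact mul_le_mul_of_nonneg_left h4 hq.le
    have h6 : 2 / (β * q) * U (j + 1) ≤ U j := by
      rw [div_mul_eq_mul_div, div_le_iff₀ (by positivity)]
      linarith
    have h7 := hUs j
    linarith
  -- descent from `q₀`
  have hdesc : ∀ q₀ c : ℝ, 0 < c → (∀ q, 0 < q → q ≤ q₀ → q - (1 - 2 / (β * q)) ≥ c) →
      (∃ N, ∀ j, N ≤ j → 0 < U (j + 1) ∧ 2 * x j + d ≤ q₀ * U (j + 1)) → False := by
    intro q₀ c hc hq₀ hP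
    have hall : ∀ k : ℕ, ∃ N, ∀ j, N ≤ j →
        0 < U (j + 1) ∧ 2 * x j + d ≤ (q₀ - k * c) * U (j + 1) := by
      intro k
      induction k with
      | zero => simpa using hP
      | succ k ih =>
        obtain ⟨N, hN⟩ := ih
        have hpos : 0 < q₀ - k * c := by
          obtain ⟨h1, h2⟩ := hN N le_rfl
          have h3 := hx N
          by_contra hneg
          push Not at hneg
          have := mul_nonpos_of_nonpos_of_nonneg hneg h1.le
          linarith
        obtain ⟨N', hN'⟩ := hstep _ hpos ⟨N, hN⟩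
        refine ⟨N', fun j hj => ⟨(hN' j hj).1, ?_⟩⟩
        obtain ⟨h1, h2⟩ := hN' j hj
        refine h2.trans ?_
        apply mul_le_mul_of_nonneg_right _ h1.le
        have := hq₀ _ hpos (by
          have : (0 : ℝ) ≤ k * c := by positivity
          linarith)
        push_cast
        linarith
    obtain ⟨k, hk⟩ := exists_nat_gt (q₀ / c)
    rw [div_lt_iff₀ hc] at hk
    obtain ⟨N, hN⟩ := hall k
    obtain ⟨h1, h2⟩ := hN N le_rfl
    have h3 := hx N
    have := mul_nonpos_of_nonpos_of_nonneg (by linarith : q₀ - k * c ≤ 0) h1.le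
    linarith
  rcases lt_or_ge β 8 with hβ8 | hβ8
  · -- case `β < 8`, start from `q₀ = 1`
    refine hdesc 1 (2 / β - 1 / 4) ?_ ?_ ?_
    · rw [sub_pos, div_lt_div_iff₀ (by norm_num) hβpos]
      linarith
    · intro q hq hq1
      have h1 : q - (1 - 2 / (β * q)) = (q ^ 2 - q + 2 / β) / q := by
        field_simp
        ring
      rw [h1, ge_iff_le, le_div_iff₀ hq]
      have h2 : 0 < 2 / β - 1 / 4 := by
        rw [sub_pos, div_lt_div_iff₀ (by norm_num) hβpos]
        linarith
      have h3 : (2 / β - 1 / 4) * q ≤ 2 / β - 1 / 4 := by nlinarith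
      nlinarith [sq_nonneg (q - 1 / 2)]
    · obtain ⟨M, hM⟩ := exists_nat_gt (a / d)
      rw [div_lt_iff₀ hd] at hM
      refine ⟨M, fun j hj => ?_⟩
      have h1 := hTd j
      have h2 : (M : ℝ) * d ≤ (j : ℝ) * d := by
        apply mul_le_mul_of_nonneg_right _ hd.le
        exact_mod_cast hj
      have h3 : 0 < U j := by
        simp only [hU]
        have : 0 < β * d / 2 := by positivity
        linarith
      have h4 := hUs j
      have h5 := hx j
      constructor
      · linarith
      · linarith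
  · -- case `β ≥ 8`
    have ha2 : a ≤ 2 * d := by
      by_contra h
      push Not at h
      linarith
    set q₀ := 2 * a / (β * d) with hq₀
    have hβd : 0 < β * d := by positivity
    have hapos : 0 < a := by linarith
    have hq₀pos : 0 < q₀ := by positivity
    have hq₀half : q₀ ≤ 1 / 2 := by
      rw [hq₀, div_le_div_iff₀ hβd (by norm_num)]
      nlinarith
    have hc : 0 < q₀ ^ 2 - q₀ + 2 / β := by
      have h1 : q₀ ^ 2 - q₀ + 2 / β = 2 * (2 * a ^ 2 - β * (d * (a - d))) / (β * d) ^ 2 := by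
        rw [hq₀]
        field_simp
        ring
      rw [h1]
      apply div_pos _ (by positivity)
      linarith
    refine hdesc q₀ (q₀ ^ 2 - q₀ + 2 / β) hc ?_ ?_
    · intro q hq hq1
      have h1 : q - (1 - 2 / (β * q)) = (q ^ 2 - q + 2 / β) / q := by
        field_simp
        ring
      rw [h1, ge_iff_le, le_div_iff₀ hq]
      have h2 : (q₀ ^ 2 - q₀ + 2 / β) * q ≤ q₀ ^ 2 - q₀ + 2 / β := by nlinarith
      nlinarith
    · -- base of the iteration, for all `j`
      refine ⟨0, fun j _ => ?_⟩
      have hU1 : 0 < U 1 := by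
        simp only [hU]
        have h1 := hTs 0
        have h2 : T 0 = 0 := zeroTime_zero
        have h3 := hx 0
        rw [zero_add] at h1
        nlinarith
      have hUpos : ∀ j, 0 < U (j + 1) := fun j => lt_of_lt_of_le hU1 (hUm (by omega))
      refine ⟨hUpos j, ?_⟩
      induction j using Nat.strong_induction_on with
      | _ j ih =>
        rcases Nat.eq_zero_or_pos j with rfl | hj
        · have h1 := hTs 0
          have h2 : T 0 = 0 := zeroTime_zero
          have h4 : T 1 ≤ a := hT1
          rw [zero_add] at h1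
          have h5 : U (0 + 1) = (2 * x 0 + d) - a + β * d / 2 := by
            simp only [hU, zero_add]
            linarith
          rw [h5, hq₀, div_mul_eq_mul_div, le_div_iff₀ hβd]
          have h6 : 0 ≤ (a - (2 * x 0 + d)) * (β * d - 2 * a) := by
            apply mul_nonneg
            · linarith
            · nlinarith
          nlinarith
        · obtain ⟨i, hi, h1⟩ := hUT j hj
          have h3 := ih i hi (Nat.zero_le _)
          have h4 : U (i + 1) ≤ U j := hUm (by omega)
          have h5 : U (j + 1) ≤ β / 2 * (q₀ * U j) := by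
            refine h1.trans ?_
            apply mul_le_mul_of_nonneg_left _ (by positivity)
            refine h3.trans ?_
            exact mul_le_mul_of_nonneg_left h4 hq₀pos.le
          have h6 : 2 / (β * q₀) * U (j + 1) ≤ U j := by
            rw [div_mul_eq_mul_div, div_le_iff₀ (by positivity)]
            linarith
          have h7 := hUs j
          have h8 : 1 - 2 / (β * q₀) ≤ q₀ := by
            have h9 : q₀ - (1 - 2 / (β * q₀)) = (q₀ ^ 2 - q₀ + 2 / β) / q₀ := by
              field_simp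
              ring
            have h10 : 0 < (q₀ ^ 2 - q₀ + 2 / β) / q₀ := div_pos hc hq₀pos
            linarith
          have h11 := mul_le_mul_of_nonneg_right h8 (hUpos j).le
          linarith

/-- From a linear bound of the capture time to the inequalities used in `core`. -/
theorem lower_of_bound (hd : 0 < d) (hx : ∀ i, 0 < x i) (a b : ℝ)
    (hC : ∀ H : ℝ, captureTime d x H ≤ ENNReal.ofReal (a + b * |H|)) :
    5 + d + 2 * √(2 * (d + 2)) ≤ a + b := by
  -- passage to the limit
  have hlim : ∀ (t m : ℝ), 0 ≤ m → 0 < t →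
      (∀ ε : ℝ, 0 < ε → t + (m + ε) ≤ a + b * (m + ε)) →
      t ≤ a + (b - 1) * m := by
    intro t m hm ht h
    by_contra hcon
    push Not at hcon
    have h1 : ∀ ε : ℝ, 0 < ε → t - (a + (b - 1) * m) ≤ (b - 1) * ε := by
      intro ε hε
      have h2 := h ε hε
      linarith
    have h2 := h1 1 one_pos
    have hb : 0 < b - 1 := by nlinarith
    have h3 := h1 ((t - (a + (b - 1) * m)) / (2 * (b - 1)))
      (div_pos (by linarith) (by linarith))
    have h4 : (b - 1) * ((t - (a + (b - 1) * m)) / (2 * (b - 1))) =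
        (t - (a + (b - 1) * m)) / 2 := by
      field_simp
    rw [h4] at h3
    linarith
  -- lower bounds give real inequalities
  have hreal : ∀ (H c : ℝ), 0 < c → ENNReal.ofReal c ≤ captureTime d x H → c ≤ a + b * |H| := by
    intro H c hc h
    have h1 := h.trans (hC H)
    by_contra hcon
    push Not at hcon
    exact absurd h1 (not_le.2 ((ENNReal.ofReal_lt_ofReal_iff hc).2 hcon))
  have hpos : ∀ n, 0 < n → 0 < zeroTime d x n := by
    intro n hn
    obtain ⟨m, rfl⟩ : ∃ m, n = m + 1 := ⟨n - 1, by omega⟩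
    rw [zeroTime_succ]
    have h1 := zeroTime_mono hd hx (Nat.zero_le m)
    rw [zeroTime_zero] at h1
    have := hx m
    linarith
  refine core hd hx a b ?_ ?_
  · have := hlim (zeroTime d x 1) 0 le_rfl (hpos 1 one_pos) ?_
    · simpa using this
    · intro ε hε
      have h1 : zeroTime d x 1 + ε ≤ a + b * |(-ε)| := by
        refine hreal (-ε) _ (by have := hpos 1 one_pos; linarith) ?_
        refine le_captureTime hd hx fun i h2 h3 => ?_
        rw [abs_neg, abs_of_pos hε]
        have hi : 1 ≤ i := by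
          by_contra hi
          have : i = 0 := by omega
          subst this
          simp at h2
          linarith
        have := zeroTime_mono hd hx hi
        linarith
      rw [abs_neg, abs_of_pos hε] at h1
      simpa using h1
  · intro n hn
    -- the largest `x j` on the side of leg `n + 1`
    obtain ⟨j, hj, hmax⟩ := Finset.exists_max_image
      ((Finset.range n).filter (fun j => Even (j + (n + 1)))) x
      ⟨n - 1, by
        rw [Finset.mem_filter, Finset.mem_range]
        refine ⟨by omega, ?_⟩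
        have : n - 1 + (n + 1) = 2 * n := by omega
        rw [this]
        exact even_two_mul n⟩
    rw [Finset.mem_filter, Finset.mem_range] at hj
    refine ⟨j, hj.1, ?_⟩
    refine hlim _ (x j) (hx j).le (hpos (n + 1) (by omega)) ?_
    intro ε hε
    set y := x j + ε with hy
    have hypos : 0 < y := by have := hx j; linarith
    have habs : |(-1 : ℝ) ^ (n + 1) * y| = y := by
      rw [abs_mul, abs_pow, abs_neg, abs_one, one_pow, one_mul, abs_of_pos hypos]
    have h1 : zeroTime d x (n + 1) + y ≤ a + b * |(-1 : ℝ) ^ (n + 1) * y| := by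
      refine hreal _ _ (by have := hpos (n + 1) (by omega); linarith) ?_
      refine le_captureTime hd hx fun i h2 h3 => ?_
      rw [habs] at h3 ⊢
      have hpar : Even (i + (n + 1)) := by
        by_contra hodd
        rw [Nat.not_even_iff_odd] at hodd
        rw [← mul_assoc, ← pow_add, hodd.neg_one_pow] at h2
        linarith
      have hi : n + 1 ≤ i := by
        by_contra hi
        push Not at hi
        have hin : i < n := by
          rcases Nat.lt_or_ge i n with h | h
          · exact h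
          · have : i = n := by omega
            subst this
            exfalso
            have : Odd (i + (i + 1)) := ⟨i, by ring⟩
            exact (Nat.not_even_iff_odd.2 this) hpar
        have := hmax i (by
          rw [Finset.mem_filter, Finset.mem_range]
          exact ⟨hin, hpar⟩)
        linarith
      have := zeroTime_mono hd hx hi
      linarith
    rw [habs] at h1
    exact h1

end Lower

/-! ### From mixed hiding strategies to a linear bound -/

section Mixed

variable {d : ℝ} {x : ℕ → ℝ}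

/-- The two-point hiding strategies. -/
theorem two_point (v : ℝ≥0∞)
    (hv : ∀ (h : Measure ℝ), IsProbabilityMeasure h → ∫⁻ H, ENNReal.ofReal |H| ∂h ≤ 1 →
      ∫⁻ H, captureTime d x H ∂h ≤ v) (H₁ H₂ s t : ℝ) (hs : 0 ≤ s) (ht : 0 ≤ t) (hst : s + t = 1)
    (hE : s * |H₁| + t * |H₂| ≤ 1) :
    ENNReal.ofReal s * captureTime d x H₁ + ENNReal.ofReal t * captureTime d x H₂ ≤ v := by
  have h1 := hv (ENNReal.ofReal s • Measure.dirac H₁ + ENNReal.ofReal t • Measure.dirac H₂)
    ⟨by
      simp only [Measure.coe_add, Measure.coe_smul, Pi.add_apply, Pi.smul_apply,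
        measure_univ, smul_eq_mul, mul_one]
      rw [← ENNReal.ofReal_add hs ht, hst, ENNReal.ofReal_one]⟩ (by
      rw [lintegral_add_measure, lintegral_smul_measure, lintegral_smul_measure,
        lintegral_dirac, lintegral_dirac, smul_eq_mul, smul_eq_mul,
        ← ENNReal.ofReal_mul hs, ← ENNReal.ofReal_mul ht,
        ← ENNReal.ofReal_add (mul_nonneg hs (abs_nonneg _)) (mul_nonneg ht (abs_nonneg _)),
        ← ENNReal.ofReal_one]
      exact ENNReal.ofReal_le_ofReal hE)
  rw [lintegral_add_measure, lintegral_smul_measure, lintegral_smul_measure,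
    lintegral_dirac, lintegral_dirac] at h1
  exact h1

theorem captureTime_zero (hd : 0 < d) (hx : ∀ i, 0 < x i) : captureTime d x 0 = 0 := by
  have := captureTime_le (d := d) (x := x) 0 0 hd hx (by simp) (by simpa using (hx 0).le)
  simpa [zeroTime_zero] using this

/-- The lower bound for one trajectory. -/
theorem lower (hd : 0 < d) (hx : ∀ i, 0 < x i) :
    ENNReal.ofReal (5 + d + 2 * √(2 * (d + 2))) ≤
      ⨆ (h : Measure ℝ) (_ : IsProbabilityMeasure h) (_ : ∫⁻ H, ENNReal.ofReal |H| ∂h ≤ 1),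
        ∫⁻ H, captureTime d x H ∂h := by
  set V : ℝ≥0∞ :=
    ⨆ (h : Measure ℝ) (_ : IsProbabilityMeasure h) (_ : ∫⁻ H, ENNReal.ofReal |H| ∂h ≤ 1),
        ∫⁻ H, captureTime d x H ∂h with hV
  by_cases hVtop : V = ∞
  · rw [hVtop]; exact le_top
  obtain ⟨v, hv0, hvV⟩ : ∃ v : ℝ, 0 ≤ v ∧ V = ENNReal.ofReal v :=
    ⟨V.toReal, ENNReal.toReal_nonneg, (ENNReal.ofReal_toReal hVtop).symm⟩
  have hall : ∀ (h : Measure ℝ), IsProbabilityMeasure h → ∫⁻ H, ENNReal.ofReal |H| ∂h ≤ 1 →
      ∫⁻ H, captureTime d x H ∂h ≤ ENNReal.ofReal v := by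
    intro h h1 h2
    rw [← hvV, hV]
    exact le_iSup_of_le h (le_iSup_of_le h1 (le_iSup_of_le h2 le_rfl))
  have h2p := two_point (d := d) (x := x) (ENNReal.ofReal v) hall
  -- finiteness
  have hfin : ∀ H, captureTime d x H ≠ ∞ := by
    intro H htop
    have hm : 0 < max 1 |H| := lt_of_lt_of_le one_pos (le_max_left _ _)
    have h1 := h2p 0 H (1 - 1 / max 1 |H|) (1 / max 1 |H|) (by
      rw [sub_nonneg, div_le_one hm]
      exact le_max_left _ _) (by positivity) (by ring) (by
      rw [abs_zero, mul_zero, zero_add, div_mul_eq_mul_div, one_mul, div_le_one hm]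
      exact le_max_right _ _)
    rw [htop, ENNReal.mul_top (by
      rw [Ne, ENNReal.ofReal_eq_zero, not_le]
      positivity)] at h1
    simp at h1
  set Cr : ℝ → ℝ := fun H => (captureTime d x H).toReal with hCr
  have hCreq : ∀ H, captureTime d x H = ENNReal.ofReal (Cr H) :=
    fun H => (ENNReal.ofReal_toReal (hfin H)).symm
  have hCr0 : ∀ H, 0 ≤ Cr H := fun H => ENNReal.toReal_nonneg
  have h2r : ∀ H₁ H₂ s t : ℝ, 0 ≤ s → 0 ≤ t → s + t = 1 → s * |H₁| + t * |H₂| ≤ 1 →
      s * Cr H₁ + t * Cr H₂ ≤ v := by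
    intro H₁ H₂ s t hs ht hst hE
    have h1 := h2p H₁ H₂ s t hs ht hst hE
    rw [hCreq, hCreq, ← ENNReal.ofReal_mul hs, ← ENNReal.ofReal_mul ht,
      ← ENNReal.ofReal_add (mul_nonneg hs (hCr0 _)) (mul_nonneg ht (hCr0 _))] at h1
    exact (ENNReal.ofReal_le_ofReal_iff hv0).1 h1
  have hmix : ∀ H₁ H₂ : ℝ, |H₁| < 1 → 1 < |H₂| →
      (Cr H₂ - v) / (|H₂| - 1) ≤ (v - Cr H₁) / (1 - |H₁|) := by
    intro H₁ H₂ h1 h2
    have hD : 0 < |H₂| - |H₁| := by linarith
    have h3 := h2r H₁ H₂ ((|H₂| - 1) / (|H₂| - |H₁|)) ((1 - |H₁|) / (|H₂| - |H₁|))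
      (div_nonneg (by linarith) hD.le) (div_nonneg (by linarith) hD.le)
      (by rw [← add_div, div_eq_one_iff_eq hD.ne']; ring)
      (by
        rw [div_mul_eq_mul_div, div_mul_eq_mul_div, ← add_div, div_le_one hD]
        apply le_of_eq; ring)
    rw [div_mul_eq_mul_div, div_mul_eq_mul_div, ← add_div, div_le_iff₀ hD] at h3
    rw [div_le_div_iff₀ (by linarith) (by linarith)]
    linarith
  -- the slope
  set A : Set ℝ := (fun H => (v - Cr H) / (1 - |H|)) '' {H | |H| < 1} with hA
  have hAne : A.Nonempty := ⟨_, 0, by simp, rfl⟩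
  have hAbdd : BddBelow A := by
    refine ⟨(Cr 2 - v) / (|(2 : ℝ)| - 1), ?_⟩
    rintro _ ⟨H, hH, rfl⟩
    exact hmix H 2 hH (by norm_num)
  set b := sInf A with hb
  have hb1 : ∀ H, |H| < 1 → Cr H ≤ (v - b) + b * |H| := by
    intro H hH
    have h1 : b ≤ (v - Cr H) / (1 - |H|) := csInf_le hAbdd ⟨H, hH, rfl⟩
    rw [le_div_iff₀ (by linarith)] at h1
    linarith
  have hb2 : ∀ H, 1 < |H| → Cr H ≤ (v - b) + b * |H| := by
    intro H hH
    have h1 : (Cr H - v) / (|H| - 1) ≤ b := by
      apply le_csInf hAne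
      rintro _ ⟨H', hH', rfl⟩
      exact hmix H' H hH' hH
    rw [div_le_iff₀ (by linarith)] at h1
    linarith
  have hb3 : ∀ H, |H| = 1 → Cr H ≤ (v - b) + b * |H| := by
    intro H hH
    have h1 := h2r H H 1 0 (by norm_num) le_rfl (by norm_num) (by rw [hH]; norm_num)
    rw [hH]
    linarith
  have hall' : ∀ H, Cr H ≤ (v - b) + b * |H| := by
    intro H
    rcases lt_trichotomy |H| 1 with h | h | h
    · exact hb1 H h
    · exact hb3 H h
    · exact hb2 H h
  have hfinal := lower_of_bound hd hx (v - b) b (fun H => by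
    rw [hCreq]
    exact ENNReal.ofReal_le_ofReal (hall' H))
  rw [hvV]
  exact ENNReal.ofReal_le_ofReal (by linarith)

end Mixed

/-! ### The optimal trajectory -/

section Upper

variable {d : ℝ}

/-- The optimal turning points. -/
noncomputable def opt (d r : ℝ) (i : ℕ) : ℝ := d * (r ^ (i + 1) - 1) / 2

theorem opt_pos {r : ℝ} (hd : 0 < d) (hr : 1 < r) (i : ℕ) : 0 < opt d r i := by
  unfold opt
  have : 1 < r ^ (i + 1) := one_lt_pow₀ hr (by omega)
  have h2 : 0 < r ^ (i + 1) - 1 := by linarith
  positivity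

theorem opt_zeroTime {r : ℝ} (i : ℕ) :
    (r - 1) * zeroTime d (opt d r) i = d * r * (r ^ i - 1) := by
  induction i with
  | zero => simp [zeroTime_zero]
  | succ i ih =>
    rw [zeroTime_succ, mul_add, ih]
    unfold opt
    ring

theorem opt_bound {r : ℝ} (hd : 0 < d) (hr : 1 < r) (H : ℝ) :
    captureTime d (opt d r) H ≤ ENNReal.ofReal (d * r + (1 + 2 * r ^ 2 / (r - 1)) * |H|) := by
  classical
  have hpos := opt_pos hd hr
  have hr1 : 0 < r - 1 := by linarith
  have hfrac : 0 < 2 * r ^ 2 / (r - 1) := by positivity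
  rcases eq_or_ne H 0 with rfl | hH
  · rw [captureTime_zero hd hpos]
    exact bot_le
  -- some leg covers `H`
  have hex : ∃ i : ℕ, 0 ≤ (-1) ^ i * H ∧ |H| ≤ opt d r i := by
    have htend : Filter.Tendsto (fun n : ℕ => r ^ n) Filter.atTop Filter.atTop :=
      tendsto_pow_atTop_atTop_of_one_lt hr
    obtain ⟨n, hn⟩ := (htend.eventually_ge_atTop (2 * |H| / d + 1)).exists_forall_of_atTop
    have hlarge : ∀ i, n ≤ i → |H| ≤ opt d r i := by
      intro i hi
      have h1 := hn (i + 1) (by omega)
      unfold opt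
      have h2 : 2 * |H| / d ≤ r ^ (i + 1) - 1 := by linarith
      rw [div_le_iff₀ hd] at h2
      linarith
    rcases le_or_gt 0 H with h | h
    · refine ⟨2 * n, ?_, hlarge _ (by omega)⟩
      rw [(even_two_mul n).neg_one_pow]
      linarith
    · refine ⟨2 * n + 1, ?_, hlarge _ (by omega)⟩
      rw [(odd_two_mul_add_one n).neg_one_pow]
      linarith
  obtain ⟨i, ⟨h1, h2⟩, hmin⟩ : ∃ i : ℕ, (0 ≤ (-1) ^ i * H ∧ |H| ≤ opt d r i) ∧
      ∀ j, j < i → ¬ (0 ≤ (-1) ^ j * H ∧ |H| ≤ opt d r j) :=
    ⟨Nat.find hex, Nat.find_spec hex, fun j hj => Nat.find_min hex hj⟩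
  refine (captureTime_le i H hd hpos h1 h2).trans (ENNReal.ofReal_le_ofReal ?_)
  have habs : 0 ≤ |H| := abs_nonneg H
  rcases Nat.lt_or_ge i 2 with hi | hi
  · have hz : zeroTime d (opt d r) i ≤ d * r := by
      rcases Nat.eq_zero_or_pos i with rfl | hi0
      · rw [zeroTime_zero]; positivity
      · have : i = 1 := by omega
        subst this
        have := opt_zeroTime (d := d) (r := r) 1
        rw [pow_one] at this
        have h3 : (r - 1) * zeroTime d (opt d r) 1 = (r - 1) * (d * r) := by rw [this]; ring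
        exact (mul_left_cancel₀ hr1.ne' h3).le
    nlinarith
  · obtain ⟨k, rfl⟩ : ∃ k, i = k + 2 := ⟨i - 2, by omega⟩
    have h3 : opt d r k < |H| := by
      by_contra h3
      push Not at h3
      apply hmin k (by omega)
      refine ⟨?_, h3⟩
      rw [pow_add] at h1
      simpa using h1
    have h4 : zeroTime d (opt d r) (k + 2) = d * r + 2 * r ^ 2 / (r - 1) * opt d r k := by
      have h5 := opt_zeroTime (d := d) (r := r) (k + 2)
      apply mul_left_cancel₀ hr1.ne'
      rw [h5]
      unfold opt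
      field_simp
      ring
    rw [h4]
    have h5 := mul_le_mul_of_nonneg_left h3.le hfrac.le
    linarith

theorem upper (hd : 0 < d) : Vbar d ≤ ENNReal.ofReal (5 + d + 2 * √(2 * (d + 2))) := by
  set w := √(2 * (d + 2)) with hw
  have hw2 : w ^ 2 = 2 * (d + 2) := Real.sq_sqrt (by linarith)
  have hwpos : 0 < w := Real.sqrt_pos.2 (by linarith)
  set r := 1 + 2 / w with hr
  have hr1 : 1 < r := by
    have : 0 < 2 / w := by positivity
    linarith
  have hval : d * r + (1 + 2 * r ^ 2 / (r - 1)) = 5 + d + 2 * w := by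
    have h1 : r - 1 = 2 / w := by rw [hr]; ring
    rw [h1, hr]
    have hd' : d = w ^ 2 / 2 - 2 := by rw [hw2]; ring
    rw [hd']
    field_simp
    ring
  unfold Vbar
  refine iInf₂_le_of_le (opt d r) (opt_pos hd hr1) ?_
  refine iSup_le fun h => iSup_le fun hp => iSup_le fun hE => ?_
  have hc : 0 ≤ 1 + 2 * r ^ 2 / (r - 1) := by
    have : 0 < r - 1 := by linarith
    positivity
  calc ∫⁻ H, captureTime d (opt d r) H ∂h
      ≤ ∫⁻ H, (ENNReal.ofReal (d * r) +
          ENNReal.ofReal (1 + 2 * r ^ 2 / (r - 1)) * ENNReal.ofReal |H|) ∂h := by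
        apply lintegral_mono
        intro H
        refine (opt_bound hd hr1 H).trans (le_of_eq ?_)
        rw [ENNReal.ofReal_add (by positivity) (mul_nonneg hc (abs_nonneg _)),
          ENNReal.ofReal_mul hc]
    _ = ENNReal.ofReal (d * r) +
          ENNReal.ofReal (1 + 2 * r ^ 2 / (r - 1)) * ∫⁻ H, ENNReal.ofReal |H| ∂h := by
        rw [lintegral_add_left measurable_const, lintegral_const, measure_univ, mul_one,
          lintegral_const_mul]
        exact ENNReal.measurable_ofReal.comp measurable_norm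
    _ ≤ ENNReal.ofReal (d * r) + ENNReal.ofReal (1 + 2 * r ^ 2 / (r - 1)) * 1 := by
        gcongr
    _ = ENNReal.ofReal (5 + d + 2 * w) := by
        rw [mul_one, ← ENNReal.ofReal_add (by positivity) hc, hval]

end Upper

theorem Vbar_eq (d : ℝ) (hd : 0 < d) :
    Vbar d = ENNReal.ofReal (5 + d + 2 * √(2 * (d + 2))) := by
  apply le_antisymm (upper hd)
  unfold Vbar
  exact le_iInf₂ fun x hx => lower hd hx

theorem value_lt (d : ℝ) (hd : 0 < d) : 5 + d + 2 * √(2 * (d + 2)) < 9 + 2 * d := by
  have h1 : √(2 * (d + 2)) < (d + 4) / 2 := by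
    rw [Real.sqrt_lt' (by linarith)]
    nlinarith [sq_nonneg d, sq_pos_of_pos hd]
  linarith

end Pool.Agent.Q216.LinSearch
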